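import Pool.Agent.Helper51.REC.Goals2
import Pool.Agent.Helper42.RD.VAL
import Pool.Agent.Helper99.RS.QEX

/-!
# Project REC, packet L_HIT
-/

set_option autoImplicit false

namespace Pool.Agent.Helper46.REC

open NumberField Module IsDedekindDomain Pool.Agent.Helper51.RP Pool.Agent.Helper42.PP
open Pool.Agent.Helper51.REC

section grp

variable {U : Type} [CommGroup U] (p : ℕ)

/-- independent modulo `p`-th powers -/
def Ind {m : ℕ} (y : Fin m → U) : Prop :=
  ∀ a : Fin m → ℕ, (∃ t : U, ∏ i, y i ^ a i = t ^ p) → ∀ i, p ∣ a i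

theorem fin_quot [Group.FG U] (hp : p ≠ 0) : Finite (U ⧸ (powMonoidHom p : U →* U).range) := by
  apply CommGroup.finite_of_fg_torsion
  intro x
  obtain ⟨u, rfl⟩ := QuotientGroup.mk_surjective x
  rw [isOfFinOrder_iff_pow_eq_one]
  refine ⟨p, Nat.pos_of_ne_zero hp, ?_⟩
  rw [← QuotientGroup.mk_pow]
  rw [QuotientGroup.eq_one_iff]
  exact ⟨u, rfl⟩

theorem ind_bound [Group.FG U] (hp : 2 ≤ p) {m : ℕ} (y : Fin m → U) (h : Ind p y) :
    m ≤ Nat.card (U ⧸ (powMonoidHom p : U →* U).range) := by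
  haveI := fin_quot (U := U) p (by omega)
  have hinj : Function.Injective (fun a : Fin m → Fin p =>
      (QuotientGroup.mk (∏ i, y i ^ (a i : ℕ)) : U ⧸ (powMonoidHom p : U →* U).range)) := by
    intro a b hab
    simp only at hab
    rw [QuotientGroup.eq] at hab
    obtain ⟨t, ht⟩ := hab
    change t ^ p = (∏ i, y i ^ (a i : ℕ))⁻¹ * ∏ i, y i ^ (b i : ℕ) at ht
    have h2 := h (fun i => (b i : ℕ) + (p - (a i : ℕ))) ⟨t * ∏ i, y i, ?_⟩
    · funext i
      have h3 := h2 i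
      have ha := (a i).2
      have hb := (b i).2
      apply Fin.ext
      obtain ⟨c, hc⟩ := h3
      have hc1 : c = 1 := by
        have h4 : 0 < p * c := by omega
        have h5 : p * c < p * 2 := by omega
        have h6 : c < 2 := lt_of_mul_lt_mul_left h5 (by omega)
        have h7 : 0 < c := Nat.pos_of_ne_zero (by rintro rfl; simp at h4)
        omega
      rw [hc1, mul_one] at hc
      omega
    · rw [mul_pow, ht, ← Finset.prod_pow, ← Finset.prod_inv_distrib, ← Finset.prod_mul_distrib,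
        ← Finset.prod_mul_distrib]
      refine Finset.prod_congr rfl fun i _ => ?_
      have ha := (a i).2
      have e : y i ^ p = y i ^ (a i : ℕ) * y i ^ (p - (a i : ℕ)) := by
        rw [← pow_add]; congr 1; omega
      rw [pow_add, e]
      group
  have h1 := Nat.card_le_card_of_injective _ hinj
  have h2 : Nat.card (Fin m → Fin p) = p ^ m := by simp
  rw [h2] at h1
  have h3 : m < p ^ m := Nat.lt_pow_self (by omega)
  omega

theorem exists_max [Group.FG U] (hp : p.Prime) (φ : U →* Multiplicative (ZMod p)) :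
    ∃ (m : ℕ) (y : Fin m → U), (∀ i, φ (y i) = 1) ∧ Ind p y ∧
      ∀ z, φ z = 1 → ∃ (a : Fin m → ℕ) (c : ℕ), ¬ p ∣ c ∧ ∃ t, (∏ i, y i ^ a i) * z ^ c = t ^ p := by
  classical
  set P : ℕ → Prop := fun m => ∃ y : Fin m → U, (∀ i, φ (y i) = 1) ∧ Ind p y with hP
  set N := Nat.card (U ⧸ (powMonoidHom p : U →* U).range) with hN
  have hb : ∀ m, P m → m ≤ N := fun m ⟨y, _, hy⟩ => ind_bound p hp.two_le y hy
  have h0 : P 0 := ⟨Fin.elim0, fun i => i.elim0, fun a _ i => i.elim0⟩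
  obtain ⟨y, hy1, hy2⟩ : P (Nat.findGreatest P N) := Nat.findGreatest_spec (Nat.zero_le N) h0
  refine ⟨Nat.findGreatest P N, y, hy1, hy2, ?_⟩
  intro z hz
  have hnot : ¬ P (Nat.findGreatest P N + 1) := by
    intro h
    exact Nat.findGreatest_is_greatest (Nat.lt_succ_self _) (hb _ h) h
  by_contra hcon
  apply hnot
  refine ⟨Fin.snoc y z, ?_, ?_⟩
  · intro i
    refine Fin.lastCases ?_ ?_ i
    · rw [Fin.snoc_last]; exact hz
    · intro j; rw [Fin.snoc_castSucc]; exact hy1 j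
  · rintro a ⟨t, ht⟩
    rw [Fin.prod_univ_castSucc] at ht
    simp only [Fin.snoc_castSucc, Fin.snoc_last] at ht
    by_cases hc : p ∣ a (Fin.last _)
    · obtain ⟨c, hc'⟩ := hc
      have h3 := hy2 (fun i => a i.castSucc) ⟨t * (z ^ c)⁻¹, by
        rw [mul_pow, inv_pow, ← pow_mul, mul_comm c p, ← hc', ← ht]
        simp⟩
      intro i
      refine Fin.lastCases ?_ ?_ i
      · exact ⟨c, hc'⟩
      · intro j; exact h3 j
    · exact absurd ⟨fun i => a i.castSucc, a (Fin.last _), hc, t, ht⟩ hcon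

end grp

theorem pw_unit {p : ℕ} (hp : p ≠ 0) {F : Type} [Field F] [NumberField F]
    {S : Set (HeightOneSpectrum (𝓞 F))} (x : S.unit F) (h : Pw p (x : Fˣ)) :
    ∃ t : S.unit F, x = t ^ p := by
  obtain ⟨y, hy⟩ := h
  have hmem : y ∈ S.unit F := by
    intro v hv
    have h1 := x.2 v hv
    rw [hy] at h1
    have h2 : v.valuation F (y : F) ^ p = 1 := by
      rw [← map_pow]; simpa using h1
    exact (pow_eq_one_iff.1 h2).resolve_right hp
  exact ⟨⟨y, hmem⟩, Subtype.ext hy⟩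

theorem toAdd_pow_eq {p : ℕ} (a : Multiplicative (ZMod p)) (n : ℕ) :
    (a ^ n).toAdd = (n : ZMod p) * a.toAdd := by
  rw [toAdd_pow, nsmul_eq_mul]

theorem l_hit (h1 : K_BAS) (h2 : H_RNK) (h3 : L_LOW) (h4 : L_UPP) : L_HIT := by
  intro p _ F _ _ ε S hS φ hφ Z hZ
  have hp : p.Prime := Fact.out
  haveI hfg : Group.FG (S.unit F) := (h2 F S hS.fin).1
  obtain ⟨x0, hx0⟩ : ∃ x0, φ x0 ≠ 1 := by
    by_contra h
    push Not at h
    exact hφ (MonoidHom.ext h)
  obtain ⟨m, y, hker, hind, hmax⟩ := exists_max p hp φ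
  have ht0 : (φ x0).toAdd ≠ 0 := by
    intro h
    exact hx0 (Multiplicative.toAdd.injective h)
  obtain ⟨C1, hC1⟩ := h3 p F ε hS.prim m (fun i => (y i : Fˣ)) (S ∪ Z) (hS.fin.union hZ)
  have hind2 : ∀ a : Fin (m + 1) → ℕ,
      Pw p (∏ i, (Fin.snoc (fun i => (y i : Fˣ)) (x0 : Fˣ) : Fin (m + 1) → Fˣ) i ^ a i) →
      ∀ i, p ∣ a i := by
    intro a ha
    rw [Fin.prod_univ_castSucc] at ha
    simp only [Fin.snoc_castSucc, Fin.snoc_last] at ha
    have e : (∏ i, (y i : Fˣ) ^ a i.castSucc) * (x0 : Fˣ) ^ a (Fin.last m) =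
        (((∏ i, y i ^ a i.castSucc) * x0 ^ a (Fin.last m) : S.unit F) : Fˣ) := by
      push_cast
      rfl
    rw [e] at ha
    obtain ⟨t, ht⟩ := pw_unit hp.ne_zero _ ha
    have hc : p ∣ a (Fin.last m) := by
      have h5 := congrArg (fun u => (φ u).toAdd) ht
      simp only [map_mul, map_prod, map_pow, hker, one_pow, Finset.prod_const_one, one_mul] at h5
      rw [toAdd_pow_eq, toAdd_pow_eq, ZMod.natCast_self, zero_mul, mul_eq_zero] at h5
      rcases h5 with h5 | h5
      · exact (ZMod.natCast_eq_zero_iff _ _).1 h5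
      · exact absurd h5 ht0
    obtain ⟨c, hc'⟩ := hc
    have h6 := hind (fun i => a i.castSucc) ⟨t * (x0 ^ c)⁻¹, by
      rw [mul_pow, inv_pow, ← pow_mul, mul_comm c p, ← hc', ← ht]
      simp⟩
    intro i
    refine Fin.lastCases ?_ ?_ i
    · exact ⟨c, hc'⟩
    · intro j; exact h6 j
  obtain ⟨C2, hC2⟩ := h4 p (m + 1) F ε hS.prim _ hind2
  -- the prime
  obtain ⟨W, hWS, hWZ, hWp, hWy, hWx⟩ : ∃ W : HeightOneSpectrum (𝓞 F), W ∉ S ∧ W ∉ Z ∧
      W.valuation F (p : F) = 1 ∧ (∀ i, LocPow p W ((y i : Fˣ) : F)) ∧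
      ¬ LocPow p W ((x0 : Fˣ) : F) := by
    by_contra hcon
    push Not at hcon
    have hsub : {v : HeightOneSpectrum (𝓞 F) | v ∉ S ∪ Z ∧ v.valuation F (p : F) = 1 ∧
        ∀ i, LocPow p v ((y i : Fˣ) : F)} ⊆ {v : HeightOneSpectrum (𝓞 F) |
        v.valuation F (p : F) = 1 ∧ ∀ i, LocPow p v
          (((Fin.snoc (fun i => (y i : Fˣ)) (x0 : Fˣ) : Fin (m + 1) → Fˣ) i : Fˣ) : F)} := by
      rintro v ⟨hv1, hv2, hv3⟩
      refine ⟨hv2, ?_⟩
      intro i
      refine Fin.lastCases ?_ ?_ i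
      · rw [Fin.snoc_last]
        exact hcon v (fun h => hv1 (Or.inl h)) (fun h => hv1 (Or.inr h)) hv2 hv3
      · intro j
        rw [Fin.snoc_castSucc]
        exact hv3 j
    have hp1 : (1 : ℝ) < p := by exact_mod_cast hp.one_lt
    have hp0 : (0 : ℝ) < p := by linarith
    set δ : ℝ := 1 / (p : ℝ) ^ m - 1 / (p : ℝ) ^ (m + 1) with hδ
    have hδ0 : 0 < δ := by
      rw [hδ, sub_pos]
      apply one_div_lt_one_div_of_lt (by positivity)
      exact pow_lt_pow_right₀ hp1 (Nat.lt_succ_self m)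
    set K : ℝ := (|C1 + C2| + 1) / δ with hK
    have hK0 : 0 ≤ K := by positivity
    have hs1 : 1 < 1 + Real.exp (-K) := by linarith [Real.exp_pos (-K)]
    have hs2 : 1 + Real.exp (-K) ≤ 2 := by
      have : Real.exp (-K) ≤ 1 := Real.exp_le_one_iff.2 (by linarith)
      linarith
    have e1 := hC1 _ hs1 hs2
    have e2 := hC2 _ hs1 hs2
    have e3 := Pool.Agent.Helper99.RS.pz_mono hsub _ hs1
    have e4 : Real.log (1 / (1 + Real.exp (-K) - 1)) = K := by
      rw [add_sub_cancel_left, one_div, Real.log_inv, Real.log_exp, neg_neg]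
    rw [e4] at e1 e2
    have e5 : δ * K = |C1 + C2| + 1 := by
      rw [hK]; field_simp
    have e6 : δ * K = 1 / (p : ℝ) ^ m * K - 1 / (p : ℝ) ^ (m + 1) * K := by
      rw [hδ]; ring
    have e7 := le_abs_self (C1 + C2)
    linarith
  obtain ⟨-, -, -, kadd, kpow, kloc, -⟩ := h1 p F ε hS.prim W hWp
  have hord : ∀ x : S.unit F, (p : ℤ) ∣ ordv W ((x : Fˣ) : F) := by
    intro x
    have h5 : ordv W ((x : Fˣ) : F) = 0 :=
      (Pool.Agent.Helper42.RD.ordv_eq_zero_iff W (x : Fˣ).ne_zero).2 (x.2 W hWS)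
    rw [h5]
    exact dvd_zero _
  have hone : kap p ε W 1 = 0 := by
    have := kpow 1
    rwa [one_pow] at this
  let κ : S.unit F →* Multiplicative (ZMod p) :=
    { toFun := fun x => Multiplicative.ofAdd (kap p ε W (x : Fˣ))
      map_one' := by
        change Multiplicative.ofAdd (kap p ε W 1) = 1
        rw [hone]
        rfl
      map_mul' := by
        intro x z
        change Multiplicative.ofAdd (kap p ε W ((x : Fˣ) * (z : Fˣ))) = _
        rw [kadd _ _ (hord x) (hord z), ofAdd_add] }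
  have hκ : ∀ x, kap p ε W ((x : S.unit F) : Fˣ) = (κ x).toAdd := fun x => rfl
  have hκy : ∀ i, κ (y i) = 1 := by
    intro i
    apply Multiplicative.toAdd.injective
    rw [← hκ, toAdd_one]
    exact (kloc _ (hord (y i))).2 (hWy i)
  have hκker : ∀ z, φ z = 1 → κ z = 1 := by
    intro z hz
    obtain ⟨a, c, hc, t, ht⟩ := hmax z hz
    have h5 := congrArg (fun u => (κ u).toAdd) ht
    simp only [map_mul, map_prod, map_pow, hκy, one_pow, Finset.prod_const_one, one_mul] at h5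
    rw [toAdd_pow_eq, toAdd_pow_eq, ZMod.natCast_self, zero_mul, mul_eq_zero] at h5
    rcases h5 with h5 | h5
    · exact absurd ((ZMod.natCast_eq_zero_iff _ _).1 h5) hc
    · exact Multiplicative.toAdd.injective h5
  have hκx : (κ x0).toAdd ≠ 0 := by
    intro h
    exact hWx ((kloc _ (hord x0)).1 h)
  refine ⟨W, (κ x0).toAdd / (φ x0).toAdd, hWS, hWZ, div_ne_zero hκx ht0, ?_⟩
  intro x
  rw [hκ]
  set k : ZMod p := (φ x).toAdd / (φ x0).toAdd with hk
  have hz : φ (x * (x0 ^ k.val)⁻¹) = 1 := by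
    apply Multiplicative.toAdd.injective
    rw [map_mul, map_inv, map_pow, toAdd_mul, toAdd_inv, toAdd_pow_eq, ZMod.natCast_zmod_val, hk,
      div_mul_cancel₀ _ ht0, toAdd_one]
    ring
  have h5 := hκker _ hz
  have h6 := congrArg (fun u => Multiplicative.toAdd u) h5
  rw [map_mul, map_inv, map_pow, toAdd_mul, toAdd_inv, toAdd_pow_eq, ZMod.natCast_zmod_val,
    toAdd_one] at h6
  have h7 : (κ x).toAdd = k * (κ x0).toAdd := by
    linear_combination h6
  rw [h7, hk]
  field_simp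

end Pool.Agent.Helper46.REC
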